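import Pool.Agent.Y101.CanSign

/-!
# MP_56c18a_ag: the sign conjecture and the powers of the canonical classes of rational varieties

Let `W` be a Weil cohomology theory on a class of varieties, `P m` the projective spaces with their
hyperplanes `h m`, `Pol` the class of the pairs of a variety and an ample divisor, `can X` the
canonical divisor of `X` and `R` the class of the rational varieties.

* If the squares `X × X` have generic sections (`HasSquareSections`, for example over the complex
  numbers) then the following are equivalent: the sign conjecture for all varieties; the Kunneth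
  conjecture for all varieties; the Lefschetz conjecture B for all varieties and ample divisors; on
  every **rational** `X` of odd dimension `2 m + 1` the power `K_X ^ (m + 1)` of the **canonical
  class** is `D · x` for an `x` in the span, over the coefficient field of the cohomology, of the
  algebraic classes of codimension `m`, for every ample divisor `D`.
* Without this hypothesis: the sign conjecture for a variety `V` of dimension `d` follows from the
  divisibility of `K_X ^ (2 d + 4)` for the rational varieties `X` of dimension `4 d + 7`.
* The sign conjecture for a generic section `Y` of `X × X`, where `X` has the dimension `2 m + 1`, in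
  the class `D × X + X × D` implies that `K_X ^ (m + 1)` is `D · z` for an algebraic class `z`.
-/

set_option autoImplicit false

open CategoryTheory AlgebraicGeometry

universe u v

namespace Pool.Agent.Results.MP_56c18a_ag.CanonicalPowers

open Pool.Agent.Y101 Pool.Agent.H914 VarClass Obj WeilCohomology Pool.Agent.Y101.Can

/-- **The sign conjecture for all varieties is equivalent to the divisibility of the powers
`K_X ^ (m + 1)` of the canonical classes of the rational varieties of dimension `2 m + 1` by the ample
classes, in the span of the algebraic classes over the coefficient field; and both implications in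
one dimension.** -/
theorem result {k : Type u} [Field k] {𝒱 : VarClass k} {ops : CycleOps 𝒱}
    {W : WeilCohomology.{u, v} ops} {P : ℕ → 𝒱.Obj} {h : ∀ m, (P m).Cycles}
    {can : ∀ X : 𝒱.Obj, X.Cycles} {Pol : ∀ X : 𝒱.Obj, X.Cycles → Prop} {R : 𝒱.Obj → Prop}
    (hP : ∀ m, IsSpace W (P m) (h m) m) (hPol : IsPolarisation W P h Pol)
    (hcan : IsCanonical W P h can) (hR : IsRationalClass W P can Pol R) :
    (HasSquareSections W Pol → List.TFAE [∀ X, SignConj W X,
      ∀ X j, AlgProjector W X (fun l => l = j), AllB W Pol,
      ∀ m, CanonicalPowersIn W can Pol R m]) ∧
    (HasEmbeddings W Pol R → ∀ V D, Pol V D → CanonicalPowersIn W can Pol R (2 * V.dim + 3) →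
      SignConj W V) ∧
    (∀ (X Y : 𝒱.Obj) (D : X.Cycles) (m : ℕ) (i : Y ⟶ X.prod X), Pol X D → X.dim = 2 * m + 1 →
      IsSection W i (boxDiv ops D D 1) → SignConj W Y →
      W.cl X (dpow ops (can X) (m + 1)) ∈ multiples W X D m) :=
  ⟨fun hW => canonicalSign_tfae hW hP hPol hcan hR,
    fun hE _ _ hD hK => sign_of_B ⟨hPol.div _ _ hD, hPol.hard _ _ hD⟩
      (canonIn_B_all hP hPol hcan hR hE hD hK),
    fun _ _ _ _ _ hD hdim hY hs => canon_of_sign hPol hcan hD hdim hY hs⟩

end Pool.Agent.Results.MP_56c18a_ag.CanonicalPowers
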