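import Pool.Agent.Y100.Sg.StB

/-!
# The sign conjecture for varieties half generated by varieties with `D`
-/

open CategoryTheory AlgebraicGeometry

universe u v

namespace Pool.Agent.Results.MP_56c18a_ag.HalfGenerated

open Pool.Agent.H914 Pool.Agent.H447 Pool.Agent.W550.B Pool.Agent.Y100.Sg VarClass Obj

/-- **The sign conjecture when the cohomology of one parity, up to the middle degree, is generated
by varieties whose products satisfy `D`.** -/
theorem result {k : Type u} [Field k] {𝒱 : VarClass k} {ops : CycleOps 𝒱}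
    (W : WeilCohomology.{u, v} ops) (S : Set 𝒱.Obj)
    (hD : ∀ T ∈ S, ∀ T' ∈ S, HomEqNum W (T.prod T'))
    (hL : ∀ T ∈ S, ∃ D, IsLefschetzDivisor W T D)
    (Y : 𝒱.Obj) (D : Y.Cycles) (hY : IsLefschetzDivisor W Y D) (ε : ℕ)
    (hgen : ∀ j ≤ Y.dim, j % 2 = ε % 2 → IsGeneratedBy W S Y j) : SignStd W Y :=
  sign_of_isGeneratedBy hD hL hY ε hgen

end Pool.Agent.Results.MP_56c18a_ag.HalfGenerated
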