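import Pool.Agent.H447R3.KuB
import Pool.Agent.TH133.PW.Ev

/-!
# The sign conjecture: numerical form and pointwise forms

Let `W` be a Weil cohomology theory with coefficient field `K` on a class of smooth proper varieties
over a field of any characteristic and `X` a variety of dimension `n` in the class. The following are
equivalent:

1. the sign conjecture: the projector `π⁺` onto the even cohomology of `X` is induced by a cycle with
   rational coefficients;
2. some cycle `z` of codimension `n` on `X × X` has the same intersection numbers as `π⁺` with all
   cycles of codimension `n`, and is a projector up to numerical equivalence;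
3. `π⁺` is a `K`-linear combination of operators induced by cycles;
4. for all classes `y` of even and `y'` of odd degree some `K`-combination of algebraic correspondences
   of degree zero, which may depend on `y` and `y'`, fixes `y` and kills `y'`;
5. if `y × w + y' × w'` is orthogonal to all algebraic cycles of codimension `n` on `X × X`, where `y`,
   `w` are classes of even degrees and `y'`, `w'` classes of odd degrees with sums of degrees `2 n`,
   then `tr (y w) = 0`;
6. every subspace of `H(X)` stable under all algebraic correspondences of degree zero is stable
   under `π⁺`.

No case of the conjecture D is assumed, and no hard Lefschetz theorem. The proofs are in the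
starting files `Pool/Agent/H447R3/KuB.lean` and `Pool/Agent/TH133/PW/Ev.lean`, whose theorems had not
been handed in.
-/

open CategoryTheory AlgebraicGeometry

universe u v

namespace Pool.Agent.Results.MP_56c18a_ag.NumericalParity

open Pool.Agent.H914 Pool.Agent.H447 Pool.Agent.TH133.PW VarClass Obj WeilCohomology

/-- **Numerical form and pointwise forms of the sign conjecture.** -/
theorem result {k : Type u} [Field k] {𝒱 : VarClass k} {ops : CycleOps 𝒱}
    (W : WeilCohomology.{u, v} ops) (X : 𝒱.Obj) :
    List.TFAE [SignStd W X, SignNum W X, EvenProjInSpan (W.gr X) (cycleOperators W X X.dim),
      SeparatesParity (W.gr X) (cycleOperators W X X.dim), DetectsParity W X,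
      StableParity (W.gr X) (cycleOperators W X X.dim)] := by
  have h := sign_tfae W X
  tfae_have 1 ↔ 2 := sign_iff_num
  tfae_have 1 ↔ 3 := h.out 0 1
  tfae_have 1 ↔ 4 := h.out 0 2
  tfae_have 1 ↔ 5 := h.out 0 3
  tfae_have 1 ↔ 6 := h.out 0 4
  tfae_finish

end Pool.Agent.Results.MP_56c18a_ag.NumericalParity
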