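import Pool.Agent.Y112.SC.Main

/-!
# The sign conjecture for tensor products of Schur functors

`C` is a `ℚ`-linear rigid symmetric monoidal category with a symmetric monoidal additive functor to
finite dimensional super vector spaces over a field `K`, for example the category of Chow or
homological motives over a perfect field with de Rham or rational crystalline cohomology.
-/

set_option autoImplicit false

open CategoryTheory Limits MonoidalCategory

namespace Pool.Agent.Results.MP_56c18a_ag.SchurFunctors

open Pool.Agent.Y112.SR Pool.Agent.Y112.SC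

universe v u w

theorem result {C : Type u} [Category.{v} C] [Preadditive C] [Linear ℚ C] [MonoidalCategory C]
    [MonoidalPreadditive C] [MonoidalLinear ℚ C] [SymmetricCategory C] [RightRigidCategory C]
    {K : Type w} [Field K] (R : SuperRealisation C K) (M N P Q : C) (m n : ℕ) (hm : 1 ≤ m)
    (hn : 1 ≤ n) (hP : IsSchurSummand M P m) (hQ : IsSchurSummand N Q n)
    (h : ¬ IsZero (R.H.obj (P ⊗ Q))) : R.CPlus (P ⊗ Q) ↔ R.CPlus M ∧ R.CPlus N := by
  have h1 : ¬ IsZero (R.H.obj P ⊗ R.H.obj Q) := fun h0 =>
    h (h0.of_iso (Functor.Monoidal.μIso R.H P Q).symm)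
  have hP0 : ¬ IsZero (R.H.obj P) := fun h0 => h1 (by
    rw [IsZero.iff_id_eq_zero] at h0 ⊢
    rw [← id_whiskerRight, h0, MonoidalPreadditive.zero_whiskerRight])
  have hQ0 : ¬ IsZero (R.H.obj Q) := fun h0 => h1 (by
    rw [IsZero.iff_id_eq_zero] at h0 ⊢
    rw [← whiskerLeft_id, h0, MonoidalPreadditive.whiskerLeft_zero])
  rw [← schur_iff R hm hP hP0, ← schur_iff R hn hQ hQ0]
  exact ⟨fun h => ⟨cplus_of_tensor R hQ0 h, cplus_of_tensor R hP0 (cplus_braid R h)⟩,
    fun h => cplus_tensor R h.1 h.2⟩

end Pool.Agent.Results.MP_56c18a_ag.SchurFunctors
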